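import Mathlib

set_option autoImplicit false

open scoped BigOperators

/-! Job SIMPLE of project KM: a nonzero subspace of the trace zero matrices which is stable
under brackets with all matrices contains all trace zero matrices (characteristic zero). -/

namespace Pool.Agent.Y708.KM

variable {k : Type*} [Field k] {N : ℕ}

private theorem bb (i j : Fin N) (hij : i ≠ j) (Y : Matrix (Fin N) (Fin N) k) :
    Matrix.single i j (1 : k) * (Matrix.single i j (1 : k) * Y - Y * Matrix.single i j (1 : k)) -
      (Matrix.single i j (1 : k) * Y - Y * Matrix.single i j (1 : k)) *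
        Matrix.single i j (1 : k) = (-2 * Y j i) • Matrix.single i j (1 : k) := by
  have h0 : Matrix.single i j (1 : k) * Matrix.single i j (1 : k) = 0 :=
    Matrix.single_mul_single_of_ne _ _ _ _ hij.symm _
  have h1 : Matrix.single i j (1 : k) * Y * Matrix.single i j (1 : k) =
      Y j i • Matrix.single i j (1 : k) := by
    rw [Matrix.single_mul_mul_single]
    simp
  have e : Matrix.single i j (1 : k) * (Matrix.single i j (1 : k) * Y -
      Y * Matrix.single i j (1 : k)) -
      (Matrix.single i j (1 : k) * Y - Y * Matrix.single i j (1 : k)) *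
        Matrix.single i j (1 : k) =
      Matrix.single i j (1 : k) * Matrix.single i j (1 : k) * Y -
      (2 : k) • (Matrix.single i j (1 : k) * Y * Matrix.single i j (1 : k)) +
      Y * (Matrix.single i j (1 : k) * Matrix.single i j (1 : k)) := by
    rw [two_smul]
    noncomm_ring
  rw [e, h0, h1, zero_mul, mul_zero, add_zero, zero_sub, smul_smul, ← neg_smul]
  congr 1
  ring

theorem sl_ideal [CharZero k]
    (K : Submodule k (Matrix (Fin N) (Fin N) k)) (hK : ∀ X, ∀ Y ∈ K, X * Y - Y * X ∈ K)
    (htr : ∀ Y ∈ K, Y.trace = 0) (hne : ∃ Y ∈ K, Y ≠ 0) (Z : Matrix (Fin N) (Fin N) k)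
    (hZ : Z.trace = 0) : Z ∈ K := by
  classical
  -- an off-diagonal entry gives a matrix unit
  have key : ∀ Y ∈ K, ∀ i j : Fin N, i ≠ j → Y j i ≠ 0 → Matrix.single i j (1 : k) ∈ K := by
    intro Y hY i j hij hne'
    have h := hK (Matrix.single i j (1 : k)) _ (hK (Matrix.single i j (1 : k)) Y hY)
    rw [bb i j hij Y] at h
    have h2 : (-2 * Y j i) ≠ 0 := by
      refine mul_ne_zero (by norm_num) hne'
    have h3 := K.smul_mem (-2 * Y j i)⁻¹ h
    rwa [smul_smul, inv_mul_cancel₀ h2, one_smul] at h3
  -- a matrix unit
  obtain ⟨a, b, hab, hE⟩ : ∃ a b : Fin N, a ≠ b ∧ Matrix.single a b (1 : k) ∈ K := by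
    obtain ⟨Y, hY, hY0⟩ := hne
    by_cases hoff : ∃ i j : Fin N, i ≠ j ∧ Y j i ≠ 0
    · obtain ⟨i, j, hij, h⟩ := hoff
      exact ⟨i, j, hij, key Y hY i j hij h⟩
    · push Not at hoff
      have hdiag : ∃ i j : Fin N, i ≠ j ∧ Y i i ≠ Y j j := by
        by_contra hcon
        push Not at hcon
        apply hY0
        have hN : ∃ i : Fin N, Y i i ≠ 0 := by
          by_contra hh
          push Not at hh
          apply hY0
          ext i j
          by_cases hij : i = j
          · subst hij; exact hh i
          · exact hoff j i (fun h => hij h.symm)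
        obtain ⟨i, hi⟩ := hN
        exfalso
        have ht := htr Y hY
        have hs : Y.trace = (N : k) * Y i i := by
          rw [Matrix.trace]
          have : ∀ j ∈ (Finset.univ : Finset (Fin N)), Y.diag j = Y i i := by
            intro j _
            by_cases hji : j = i
            · subst hji; rfl
            · exact hcon j i hji
          rw [Finset.sum_congr rfl this]
          simp
        rw [hs] at ht
        have hN0 : (N : k) ≠ 0 := by
          have : N ≠ 0 := by
            rintro rfl
            exact i.elim0
          exact_mod_cast this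
        exact (mul_ne_zero hN0 hi) ht
      obtain ⟨i, j, hij, hne'⟩ := hdiag
      refine ⟨i, j, hij, ?_⟩
      have h := hK (Matrix.single j i (1 : k)) Y hY
      refine key _ h i j hij ?_
      rw [Matrix.sub_apply, Matrix.single_mul_apply_same, Matrix.mul_single_apply_same, one_mul,
        mul_one, sub_ne_zero]
      exact hne'
  -- the transposed unit
  have htransp : ∀ i j : Fin N, i ≠ j → Matrix.single i j (1 : k) ∈ K →
      Matrix.single j i (1 : k) ∈ K := by
    intro i j hij h
    refine key _ h j i hij.symm ?_
    rw [Matrix.single_apply_same]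
    exact one_ne_zero
  -- left move
  have hleft : ∀ i j l : Fin N, i ≠ j → l ≠ j → Matrix.single i j (1 : k) ∈ K →
      Matrix.single l j (1 : k) ∈ K := by
    intro i j l hij hlj h
    have h1 := hK (Matrix.single l i (1 : k)) _ h
    rw [Matrix.single_mul_single_same, Matrix.single_mul_single_of_ne _ _ _ _ hlj.symm, sub_zero,
      mul_one] at h1
    exact h1
  have hright : ∀ i j l : Fin N, i ≠ j → l ≠ i → Matrix.single i j (1 : k) ∈ K →
      Matrix.single i l (1 : k) ∈ K := by
    intro i j l hij hli h
    exact htransp l i hli (hleft j i l hij.symm hli (htransp i j hij h))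
  have hall : ∀ i j : Fin N, i ≠ j → Matrix.single i j (1 : k) ∈ K := by
    intro i j hij
    by_cases hib : i = b
    · subst hib
      exact hright i a j hab.symm hij.symm (htransp a i hab hE)
    · exact hright i b j hib hij.symm (hleft a b i hab hib hE)
  have hdd : ∀ i j : Fin N, Matrix.single i i (1 : k) - Matrix.single j j (1 : k) ∈ K := by
    intro i j
    by_cases hij : i = j
    · subst hij
      rw [sub_self]
      exact K.zero_mem
    · have h1 := hK (Matrix.single i j (1 : k)) _ (hall j i (fun h => hij h.symm))
      rw [Matrix.single_mul_single_same, Matrix.single_mul_single_same, mul_one] at h1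
      exact h1
  -- decompose
  have hdec : Z = ∑ i, ∑ j, (if i = j then Z i i • (Matrix.single i i (1 : k) -
      Matrix.single a a (1 : k)) else Z i j • Matrix.single i j (1 : k)) := by
    have h1 : Z = ∑ i, ∑ j, Z i j • Matrix.single i j (1 : k) := by
      conv_lhs => rw [Matrix.matrix_eq_sum_single Z]
      refine Finset.sum_congr rfl fun i _ => Finset.sum_congr rfl fun j _ => ?_
      rw [Matrix.smul_single, smul_eq_mul, mul_one]
    have h2 : ∑ i, ∑ j, (if i = j then Z i i • (Matrix.single i i (1 : k) -
        Matrix.single a a (1 : k)) else Z i j • Matrix.single i j (1 : k)) =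
        ∑ i, ∑ j, (Z i j • Matrix.single i j (1 : k) -
          if i = j then Z i i • Matrix.single a a (1 : k) else 0) := by
      refine Finset.sum_congr rfl fun i _ => Finset.sum_congr rfl fun j _ => ?_
      by_cases hij : i = j
      · subst hij
        rw [if_pos rfl, if_pos rfl, smul_sub]
      · rw [if_neg hij, if_neg hij, sub_zero]
    rw [h2]
    have h3 : ∑ i, ∑ j, (Z i j • Matrix.single i j (1 : k) -
          if i = j then Z i i • Matrix.single a a (1 : k) else 0) =
        ∑ i, ∑ j, Z i j • Matrix.single i j (1 : k) -
          Z.trace • Matrix.single a a (1 : k) := by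
      simp only [Finset.sum_sub_distrib, Finset.sum_ite_eq, Finset.mem_univ, if_true]
      rw [← Finset.sum_smul]
      rfl
    rw [h3, hZ, zero_smul, sub_zero]
    exact h1
  rw [hdec]
  refine K.sum_mem fun i _ => K.sum_mem fun j _ => ?_
  split_ifs with h
  · exact K.smul_mem _ (hdd i a)
  · exact K.smul_mem _ (hall i j h)

end Pool.Agent.Y708.KM
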